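import Mathlib
import Pool.Agent.W796.PH.Defs
import Pool.Agent.Helper366.IV.Stokes

set_option autoImplicit false

open MeasureTheory Metric Set Filter Topology
open scoped ContDiff ENNReal ComplexConjugate

namespace Pool.Agent.W585.PHG

/-- Fubini for integrals over concentric discs -/
theorem fub (h : ℂ → ℝ) (m : ℝ → ℝ) (c : ℂ) {a b : ℝ} (hab : a ≤ b)
    (hh : IntegrableOn h (ball c b)) (hm : ContinuousOn m (Icc a b)) :
    IntervalIntegrable (fun r => m r * ∫ z in ball c r, h z) volume a b ∧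
    ∫ r in a..b, m r * ∫ z in ball c r, h z =
      ∫ z in ball c b, h z * ∫ r in (max a ‖z - c‖)..b, m r := by
  set μ : Measure ℝ := volume.restrict (Ioc a b) with hμ
  set ν : Measure ℂ := volume.restrict (ball c b) with hν
  set S : Set (ℝ × ℂ) := {p | ‖p.2 - c‖ < p.1} with hS
  have hSm : MeasurableSet S :=
    (isOpen_lt ((continuous_snd.sub continuous_const).norm) continuous_fst).measurableSet
  set G : ℝ × ℂ → ℝ := S.indicator (fun p => m p.1 * h p.2) with hG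
  have hm' : Integrable m μ := (hm.integrableOn_compact isCompact_Icc).mono_set Ioc_subset_Icc_self
  have hGi : Integrable G (μ.prod ν) := (Integrable.mul_prod hm' hh).indicator hSm
  have k1 : ∀ r ∈ Ioc a b, ∫ z, G (r, z) ∂ν = m r * ∫ z in ball c r, h z := by
    intro r hr
    have e1 : (fun z => G (r, z)) = (ball c r).indicator (fun z => m r * h z) := by
      ext z
      by_cases hz : z ∈ ball c r
      · have : (r, z) ∈ S := by
          rw [hS, mem_ofPred_eq]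
          rwa [mem_ball, dist_eq_norm] at hz
        rw [hG, indicator_of_mem this, indicator_of_mem hz]
      · have : (r, z) ∉ S := by
          rw [hS, mem_ofPred_eq]
          rwa [mem_ball, dist_eq_norm] at hz
        rw [hG, indicator_of_notMem this, indicator_of_notMem hz]
    rw [e1, integral_indicator measurableSet_ball, hν, Measure.restrict_restrict measurableSet_ball,
      inter_eq_left.2 (ball_subset_ball hr.2), integral_const_mul]
  have k2 : ∀ z ∈ ball c b, ∫ r, G (r, z) ∂μ = h z * ∫ r in (max a ‖z - c‖)..b, m r := by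
    intro z hz
    rw [mem_ball, dist_eq_norm] at hz
    have e1 : (fun r => G (r, z)) = (Ioi ‖z - c‖).indicator (fun r => h z * m r) := by
      ext r
      by_cases hr : r ∈ Ioi ‖z - c‖
      · have : (r, z) ∈ S := hr
        rw [hG, indicator_of_mem this, indicator_of_mem hr, mul_comm]
      · have : (r, z) ∉ S := hr
        rw [hG, indicator_of_notMem this, indicator_of_notMem hr]
    rw [e1, integral_indicator measurableSet_Ioi, hμ, Measure.restrict_restrict measurableSet_Ioi,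
      inter_comm, Ioc_inter_Ioi, integral_const_mul,
      intervalIntegral.integral_of_le (max_le hab hz.le)]
  have k3 : ∀ᵐ r ∂μ, ∫ z, G (r, z) ∂ν = m r * ∫ z in ball c r, h z :=
    (ae_restrict_iff' measurableSet_Ioc).2 (Eventually.of_forall k1)
  have k4 : ∀ᵐ z ∂ν, ∫ r, G (r, z) ∂μ = h z * ∫ r in (max a ‖z - c‖)..b, m r :=
    (ae_restrict_iff' measurableSet_ball).2 (Eventually.of_forall k2)
  constructor
  · rw [intervalIntegrable_iff_integrableOn_Ioc_of_le hab]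
    exact hGi.integral_prod_left.congr k3
  · rw [intervalIntegral.integral_of_le hab, ← integral_congr_ae k3, ← integral_congr_ae k4]
    exact integral_integral_swap (f := fun r z => G (r, z)) hGi

/-- convergence of integrals of quadratic expressions -/
theorem L1lim {μ : Measure ℂ} {P : ℕ → ℂ → ℝ} {p : ℂ → ℝ} {e : ℕ → ℂ → ℝ} {s : ℂ → ℝ}
    (hs : MemLp s 2 μ) (he : ∀ n, MemLp (e n) 2 μ)
    (h0 : Tendsto (fun n => eLpNorm (e n) 2 μ) atTop (𝓝 0))
    (hP : ∀ n, Integrable (P n) μ) (hp : Integrable p μ) (C : ℝ)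
    (hb : ∀ n, ∀ᵐ z ∂μ, |P n z - p z| ≤ C * (e n z * (e n z + s z))) :
    Tendsto (fun n => ∫ z, P n z ∂μ) atTop (𝓝 (∫ z, p z ∂μ)) := by
  have h1 : Tendsto (fun n => ∫ z, e n z * (e n z + s z) ∂μ) atTop (𝓝 (∫ z, 0 * s z ∂μ)) := by
    apply Pool.Agent.Helper366.IV.j1865_T2mul (𝕜 := ℝ) (f := fun _ => 0) (g := s)
      (F := e) (G := fun n z => e n z + s z) MemLp.zero' hs he (fun n => (he n).add hs)
    · simpa using h0
    · simpa using h0
  have h2 : ∫ z, 0 * s z ∂μ = 0 := by simp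
  rw [h2] at h1
  rw [tendsto_iff_norm_sub_tendsto_zero]
  have h3 : Tendsto (fun n => C * ∫ z, e n z * (e n z + s z) ∂μ) atTop (𝓝 0) := by
    simpa using h1.const_mul C
  refine squeeze_zero (fun n => norm_nonneg _) (fun n => ?_) h3
  rw [← integral_sub (hP n) hp, ← integral_const_mul]
  refine (norm_integral_le_integral_norm _).trans ?_
  apply integral_mono_ae ((hP n).sub hp).norm
  · exact ((he n).integrable_mul ((he n).add hs)).const_mul C
  · exact hb n

/-- linear algebra: the derivative in a direction is controlled by the distortion -/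
theorem alg_tau (X Y : ℂ) (k α β : ℝ) (hk : 1 ≤ k)
    (hQ : ‖X‖ ^ 2 + ‖Y‖ ^ 2 ≤ (k + 1 / k) * (X.re * Y.im - Y.re * X.im)) :
    ‖α • X + β • Y‖ ^ 2 * (1 + k ^ 2) ≤ (α ^ 2 + β ^ 2) * k ^ 2 * (‖X‖ ^ 2 + ‖Y‖ ^ 2) := by
  have hk0 : 0 < k := by linarith
  set P : ℂ := α • X + β • Y with hP
  set P' : ℂ := (-β) • X + α • Y with hP'
  have nsq : ∀ z : ℂ, ‖z‖ ^ 2 = z.re ^ 2 + z.im ^ 2 := by
    intro z
    rw [← Complex.normSq_eq_norm_sq, Complex.normSq_apply]
    ring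
  have e1 : ‖P‖ ^ 2 + ‖P'‖ ^ 2 = (α ^ 2 + β ^ 2) * (‖X‖ ^ 2 + ‖Y‖ ^ 2) := by
    rw [nsq, nsq, nsq, nsq, hP, hP']
    simp only [Complex.add_re, Complex.add_im, Complex.real_smul, Complex.mul_re, Complex.mul_im,
      Complex.ofReal_re, Complex.ofReal_im]
    ring
  have e2 : P.re * P'.im - P'.re * P.im = (α ^ 2 + β ^ 2) * (X.re * Y.im - Y.re * X.im) := by
    rw [hP, hP']
    simp only [Complex.add_re, Complex.add_im, Complex.real_smul, Complex.mul_re, Complex.mul_im,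
      Complex.ofReal_re, Complex.ofReal_im]
    ring
  have e3 : P.re * P'.im - P'.re * P.im ≤ ‖P‖ * ‖P'‖ := by
    apply abs_le_of_sq_le_sq' _ (by positivity) |>.2
    rw [mul_pow, nsq P, nsq P']
    nlinarith [sq_nonneg (P.re * P'.re + P.im * P'.im)]
  have e4 : ‖P‖ ^ 2 + ‖P'‖ ^ 2 ≤ (k + 1 / k) * (‖P‖ * ‖P'‖) := by
    calc ‖P‖ ^ 2 + ‖P'‖ ^ 2 = (α ^ 2 + β ^ 2) * (‖X‖ ^ 2 + ‖Y‖ ^ 2) := e1
      _ ≤ (α ^ 2 + β ^ 2) * ((k + 1 / k) * (X.re * Y.im - Y.re * X.im)) :=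
          mul_le_mul_of_nonneg_left hQ (by positivity)
      _ = (k + 1 / k) * (P.re * P'.im - P'.re * P.im) := by rw [e2]; ring
      _ ≤ (k + 1 / k) * (‖P‖ * ‖P'‖) := mul_le_mul_of_nonneg_left e3 (by positivity)
  have hp := norm_nonneg P
  have hp' := norm_nonneg P'
  have e5 : ‖P‖ ≤ k * ‖P'‖ := by
    by_contra hcon
    push Not at hcon
    have h1 : ‖P'‖ / k ≤ k * ‖P'‖ := by
      rw [div_le_iff₀ hk0]
      have h0 : 1 ≤ k * k := by nlinarith
      nlinarith [mul_le_mul_of_nonneg_left h0 hp']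
    have h2 : 0 < (‖P‖ - k * ‖P'‖) * (‖P‖ - ‖P'‖ / k) := mul_pos (by linarith) (by linarith)
    have h3 : (‖P‖ - k * ‖P'‖) * (‖P‖ - ‖P'‖ / k) =
        ‖P‖ ^ 2 + ‖P'‖ ^ 2 - (k + 1 / k) * (‖P‖ * ‖P'‖) := by
      field_simp
      ring
    linarith
  have e6 : ‖P‖ ^ 2 ≤ k ^ 2 * ‖P'‖ ^ 2 := by
    rw [← mul_pow]
    exact pow_le_pow_left₀ hp e5 2
  calc ‖P‖ ^ 2 * (1 + k ^ 2) = ‖P‖ ^ 2 + k ^ 2 * ‖P‖ ^ 2 := by ring
    _ ≤ k ^ 2 * ‖P'‖ ^ 2 + k ^ 2 * ‖P‖ ^ 2 := by linarith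
    _ = k ^ 2 * (‖P‖ ^ 2 + ‖P'‖ ^ 2) := by ring
    _ = (α ^ 2 + β ^ 2) * k ^ 2 * (‖X‖ ^ 2 + ‖Y‖ ^ 2) := by rw [e1]; ring

end Pool.Agent.W585.PHG
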