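import Mathlib

set_option autoImplicit false

open MeasureTheory Metric Set Filter Topology
open scoped ContDiff ENNReal ComplexConjugate

namespace Pool.Agent.W585.PHG

/-- polar coordinates on an annulus -/
theorem polar_annulus (F : ℂ → ℝ) (c : ℂ) {a b : ℝ} (ha : 0 ≤ a) (hab : a ≤ b)
    (hF : ContinuousOn F {z | a ≤ ‖z - c‖ ∧ ‖z - c‖ ≤ b}) :
    ∫ z in {z | a < ‖z - c‖ ∧ ‖z - c‖ < b}, F z =
      ∫ ρ in a..b, ∫ θ in (-Real.pi)..Real.pi, ρ * F (c + ρ * Complex.exp (θ * Complex.I)) := by
  have hpi : (-Real.pi) ≤ Real.pi := by linarith [Real.pi_pos]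
  set G : ℂ → ℝ := fun z => F (c + z) with hG
  set A : Set ℂ := {z | a < ‖z‖ ∧ ‖z‖ < b} with hA
  have hmeas : MeasurableSet A := by
    apply MeasurableSet.inter
    · exact (isOpen_lt continuous_const continuous_norm).measurableSet
    · exact (isOpen_lt continuous_norm continuous_const).measurableSet
  have e1 : ∫ z in {z | a < ‖z - c‖ ∧ ‖z - c‖ < b}, F z = ∫ z in A, G z := by
    have h1 := (measurePreserving_add_left (volume : Measure ℂ) c).setIntegral_preimage_emb
      (measurableEmbedding_addLeft c) F {z | a < ‖z - c‖ ∧ ‖z - c‖ < b}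
    rw [← h1]
    congr 2
    ext z
    simp [hA]
  rw [e1, ← integral_indicator hmeas, ← Complex.integral_comp_polarCoord_symm]
  set f : ℂ → ℝ := A.indicator G with hf
  set H : ℝ × ℝ → ℝ := fun p => p.1 * G (Complex.polarCoord.symm p) with hH
  have hsymm : ∀ p : ℝ × ℝ, Complex.polarCoord.symm p = p.1 * Complex.exp (p.2 * Complex.I) := by
    intro p
    rw [Complex.polarCoord_symm_apply, Complex.exp_mul_I]
    push_cast; ring
  have hnorm : ∀ p : ℝ × ℝ, 0 ≤ p.1 → ‖Complex.polarCoord.symm p‖ = p.1 := by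
    intro p hp
    rw [hsymm, norm_mul, Complex.norm_exp_ofReal_mul_I, mul_one, Complex.norm_real,
      Real.norm_of_nonneg hp]
  have htar : polarCoord.target = Ioi (0 : ℝ) ×ˢ Ioo (-Real.pi) Real.pi := rfl
  have hmt : MeasurableSet polarCoord.target := by
    rw [htar]; exact measurableSet_Ioi.prod measurableSet_Ioo
  have e3 : ∫ p in polarCoord.target, p.1 • f (Complex.polarCoord.symm p) =
      ∫ p in Ioo a b ×ˢ Ioo (-Real.pi) Real.pi, H p := by
    have hsub : Ioo a b ×ˢ Ioo (-Real.pi) Real.pi ⊆ polarCoord.target := by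
      rw [htar]
      exact prod_mono (fun x hx => ha.trans_lt hx.1) subset_rfl
    rw [setIntegral_eq_of_subset_of_forall_sdiff_eq_zero hmt hsub]
    · apply setIntegral_congr_fun (measurableSet_Ioo.prod measurableSet_Ioo)
      intro p hp
      have hp0 : 0 ≤ p.1 := (ha.trans_lt hp.1.1).le
      have : Complex.polarCoord.symm p ∈ A := by
        rw [hA, mem_ofPred_eq, hnorm p hp0]; exact hp.1
      simp only [hf, hH, indicator_of_mem this, smul_eq_mul]
    · intro p hp
      have hp0 : 0 < p.1 := by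
        have := hp.1
        rw [htar] at this
        exact this.1
      have : Complex.polarCoord.symm p ∉ A := by
        rw [hA, mem_ofPred_eq, hnorm p hp0.le]
        intro h2
        apply hp.2
        have h3 := hp.1
        rw [htar] at h3
        exact ⟨h2, h3.2⟩
      simp only [hf, indicator_of_notMem this, smul_zero]
  rw [e3]
  have hcs : Continuous (fun p : ℝ × ℝ => Complex.polarCoord.symm p) := by
    have : (fun p : ℝ × ℝ => (Complex.polarCoord.symm p)) =
        fun p : ℝ × ℝ => (p.1 : ℂ) * Complex.exp (p.2 * Complex.I) := by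
      ext p; exact hsymm p
    rw [this]
    fun_prop
  have hHc : ContinuousOn H (Icc a b ×ˢ Icc (-Real.pi) Real.pi) := by
    have h3 : ContinuousOn (fun p : ℝ × ℝ => F (c + Complex.polarCoord.symm p))
        (Icc a b ×ˢ Icc (-Real.pi) Real.pi) := by
      refine hF.comp (continuous_const.add hcs).continuousOn ?_
      intro p hp
      have hp0 : 0 ≤ p.1 := ha.trans hp.1.1
      show a ≤ ‖c + Complex.polarCoord.symm p - c‖ ∧ ‖c + Complex.polarCoord.symm p - c‖ ≤ b
      rw [add_sub_cancel_left, hnorm p hp0]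
      exact hp.1
    exact continuousOn_fst.mul h3
  have hHi : IntegrableOn H (Ioo a b ×ˢ Ioo (-Real.pi) Real.pi)
      ((volume : Measure ℝ).prod (volume : Measure ℝ)) := by
    rw [← Measure.volume_eq_prod]
    exact (hHc.integrableOn_compact (isCompact_Icc.prod isCompact_Icc)).mono_set
      (prod_mono Ioo_subset_Icc_self Ioo_subset_Icc_self)
  rw [Measure.volume_eq_prod, setIntegral_prod H hHi]
  rw [intervalIntegral.integral_of_le hab, integral_Ioc_eq_integral_Ioo]
  apply setIntegral_congr_fun measurableSet_Ioo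
  intro ρ hρ
  simp only []
  rw [intervalIntegral.integral_of_le hpi, integral_Ioc_eq_integral_Ioo]
  apply setIntegral_congr_fun measurableSet_Ioo
  intro θ _
  simp only [hH, hG, hsymm]

/-- polar coordinates on a disc -/
theorem polar_ball (F : ℂ → ℝ) (c : ℂ) {b : ℝ} (hb : 0 ≤ b)
    (hF : ContinuousOn F (closedBall c b)) :
    ∫ z in ball c b, F z =
      ∫ ρ in (0 : ℝ)..b, ∫ θ in (-Real.pi)..Real.pi,
        ρ * F (c + ρ * Complex.exp (θ * Complex.I)) := by
  rw [← polar_annulus F c le_rfl hb]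
  · apply setIntegral_congr_set
    have h0 : ∀ᵐ z : ℂ, z ≠ c := by
      rw [ae_iff]
      simp
    filter_upwards [h0] with z hz
    have : 0 < ‖z - c‖ := norm_pos_iff.2 (sub_ne_zero.2 hz)
    apply propext
    show z ∈ ball c b ↔ z ∈ {z | 0 < ‖z - c‖ ∧ ‖z - c‖ < b}
    rw [mem_ball, dist_eq_norm]
    exact ⟨fun h => ⟨this, h⟩, fun h => h.2⟩
  · refine hF.mono ?_
    intro z hz
    rw [mem_closedBall, dist_eq_norm]
    exact hz.2

end Pool.Agent.W585.PHG
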