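import Mathlib
import Pool.Agent.H821R3.Wirt
import Pool.Agent.W796.PH.Defs
import Pool.Agent.W585.PHG.Polar

set_option autoImplicit false

open MeasureTheory Metric Set Filter Topology
open scoped ContDiff ENNReal ComplexConjugate
open Pool.Agent.Helper366.IV (Jac)

namespace Pool.Agent.W585.PHG

/-- the isoperimetric inequality for closed curves, in the parametric form -/
theorem circ (f g f' g' : ℝ → ℝ) (hf : ∀ x, HasDerivAt f (f' x) x)
    (hg : ∀ x, HasDerivAt g (g' x) x) (hf' : Continuous f') (hg' : Continuous g')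
    (pf : ∀ x, f (x + 2 * Real.pi) = f x) (pg : ∀ x, g (x + 2 * Real.pi) = g x) :
    ∫ x in (-Real.pi)..Real.pi, (f x * g' x - g x * f' x) ≤
      ∫ x in (-Real.pi)..Real.pi, (f' x ^ 2 + g' x ^ 2) := by
  have hpi := Real.pi_pos
  have hfc : Continuous f := continuous_iff_continuousAt.2 fun x => (hf x).continuousAt
  have hgc : Continuous g := continuous_iff_continuousAt.2 fun x => (hg x).continuousAt
  have pf' : ∀ x, f' (x + 2 * Real.pi) = f' x := by
    intro x
    have h1 : HasDerivAt (fun y => f (y + 2 * Real.pi)) (f' (x + 2 * Real.pi)) x :=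
      (hf (x + 2 * Real.pi)).comp_add_const x (2 * Real.pi)
    rw [funext pf] at h1
    exact h1.unique (hf x)
  have pg' : ∀ x, g' (x + 2 * Real.pi) = g' x := by
    intro x
    have h1 : HasDerivAt (fun y => g (y + 2 * Real.pi)) (g' (x + 2 * Real.pi)) x :=
      (hg (x + 2 * Real.pi)).comp_add_const x (2 * Real.pi)
    rw [funext pg] at h1
    exact h1.unique (hg x)
  have p1 : Function.Periodic (fun x => f x * g' x - g x * f' x) (2 * Real.pi) := by
    intro x
    simp only [pf, pg, pf', pg']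
  have p2 : Function.Periodic (fun x => f' x ^ 2 + g' x ^ 2) (2 * Real.pi) := by
    intro x
    simp only [pf', pg']
  have j1 := p1.intervalIntegral_add_eq (-Real.pi) 0
  have j2 := p2.intervalIntegral_add_eq (-Real.pi) 0
  have e0 : -Real.pi + 2 * Real.pi = Real.pi := by ring
  rw [e0, zero_add] at j1 j2
  rw [j1, j2]
  have hw := Pool.Agent.H821R3.wirtinger f f' hf hf' pf pf'
  set T : ℝ := 2 * Real.pi with hT
  have hT0 : 0 < T := by positivity
  set m : ℝ := 1 / T * ∫ θ in (0 : ℝ)..T, f θ with hm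
  have e1 : ∫ x in (0 : ℝ)..T, (f' x * g x + f x * g' x) = 0 := by
    have h1 : ∀ x ∈ Set.uIcc (0 : ℝ) T, HasDerivAt (fun y => f y * g y)
        (f' x * g x + f x * g' x) x := fun x _ => (hf x).mul (hg x)
    rw [intervalIntegral.integral_eq_sub_of_hasDerivAt h1
      (((hf'.mul hgc).add (hfc.mul hg')).intervalIntegrable _ _)]
    have h2 := pf 0
    have h3 := pg 0
    rw [zero_add] at h2 h3
    rw [h2, h3, sub_self]
  have e2 : ∫ x in (0 : ℝ)..T, g' x = 0 := by
    rw [intervalIntegral.integral_eq_sub_of_hasDerivAt (fun x _ => hg x)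
      (hg'.intervalIntegrable _ _)]
    have h3 := pg 0
    rw [zero_add] at h3
    rw [h3, sub_self]
  have e3 : ∫ x in (0 : ℝ)..T, (f' x ^ 2 - (f x - m) ^ 2) =
      (∫ x in (0 : ℝ)..T, f' x ^ 2) + 1 / T * (∫ x in (0 : ℝ)..T, f x) ^ 2 -
        ∫ x in (0 : ℝ)..T, f x ^ 2 := by
    have h1 : ∀ x, f' x ^ 2 - (f x - m) ^ 2 = ((f' x ^ 2 - f x ^ 2) + (2 * m) * f x) - m ^ 2 := by
      intro x; ring
    rw [intervalIntegral.integral_congr (fun x _ => h1 x),
      intervalIntegral.integral_sub, intervalIntegral.integral_add, intervalIntegral.integral_sub,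
      intervalIntegral.integral_const_mul, intervalIntegral.integral_const, sub_zero, smul_eq_mul]
    · have h2 : ∫ θ in (0 : ℝ)..T, f θ = T * m := by
        rw [hm]
        field_simp
      rw [h2]
      field_simp
      ring
    · exact (hf'.pow 2).intervalIntegrable _ _
    · exact (hfc.pow 2).intervalIntegrable _ _
    · exact ((hf'.pow 2).sub (hfc.pow 2)).intervalIntegrable _ _
    · exact (hfc.const_mul _).intervalIntegrable _ _
    · exact (((hf'.pow 2).sub (hfc.pow 2)).add (hfc.const_mul _)).intervalIntegrable _ _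
    · exact continuous_const.intervalIntegrable _ _
  have e4 : ∀ x, (f' x ^ 2 + g' x ^ 2) - (f x * g' x - g x * f' x) =
      (((g' x - (f x - m)) ^ 2 + (f' x ^ 2 - (f x - m) ^ 2)) + (f' x * g x + f x * g' x))
        + (-(2 * m)) * g' x := by
    intro x; ring
  have c1 : Continuous (fun x => f x * g' x - g x * f' x) :=
    (hfc.mul hg').sub (hgc.mul hf')
  have c2 : Continuous (fun x => f' x ^ 2 + g' x ^ 2) := (hf'.pow 2).add (hg'.pow 2)
  have e5 : (∫ x in (0 : ℝ)..T, (f' x ^ 2 + g' x ^ 2)) -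
      (∫ x in (0 : ℝ)..T, (f x * g' x - g x * f' x)) =
      ∫ x in (0 : ℝ)..T, ((f' x ^ 2 + g' x ^ 2) - (f x * g' x - g x * f' x)) :=
    (intervalIntegral.integral_sub (c2.intervalIntegrable _ _) (c1.intervalIntegrable _ _)).symm
  have e6 : 0 ≤ ∫ x in (0 : ℝ)..T, ((f' x ^ 2 + g' x ^ 2) - (f x * g' x - g x * f' x)) := by
    rw [intervalIntegral.integral_congr (fun x _ => e4 x), intervalIntegral.integral_add,
      intervalIntegral.integral_add, intervalIntegral.integral_add,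
      intervalIntegral.integral_const_mul, e1, e2, e3]
    · have h1 : 0 ≤ ∫ x in (0 : ℝ)..T, (g' x - (f x - m)) ^ 2 :=
        intervalIntegral.integral_nonneg hT0.le fun x _ => sq_nonneg _
      linarith
    · exact ((hg'.sub (hfc.sub continuous_const)).pow 2).intervalIntegrable _ _
    · exact ((hf'.pow 2).sub ((hfc.sub continuous_const).pow 2)).intervalIntegrable _ _
    · exact (((hg'.sub (hfc.sub continuous_const)).pow 2).add
        ((hf'.pow 2).sub ((hfc.sub continuous_const).pow 2))).intervalIntegrable _ _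
    · exact ((hf'.mul hgc).add (hfc.mul hg')).intervalIntegrable _ _
    · exact ((((hg'.sub (hfc.sub continuous_const)).pow 2).add
        ((hf'.pow 2).sub ((hfc.sub continuous_const).pow 2))).add
          ((hf'.mul hgc).add (hfc.mul hg'))).intervalIntegrable _ _
    · exact (hg'.const_mul _).intervalIntegrable _ _
  linarith

/-- the point with polar coordinates `ρ, θ` around `c` -/
noncomputable def pt (c : ℂ) (ρ θ : ℝ) : ℂ := c + ρ * Complex.exp (θ * Complex.I)

lemma expI_hasDerivAt (θ : ℝ) : HasDerivAt (fun θ : ℝ => Complex.exp (θ * Complex.I))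
    (Complex.exp (θ * Complex.I) * Complex.I) θ := by
  have h1 : HasDerivAt (fun z : ℂ => Complex.exp (z * Complex.I))
      (Complex.exp ((θ : ℂ) * Complex.I) * Complex.I) (θ : ℂ) := by
    have h2 : HasDerivAt (fun z : ℂ => z * Complex.I) Complex.I (θ : ℂ) := by
      simpa using (hasDerivAt_id (θ : ℂ)).mul_const Complex.I
    exact h2.cexp
  exact h1.comp_ofReal

lemma pt_hasDerivAt_ρ (c : ℂ) (ρ θ : ℝ) :
    HasDerivAt (fun ρ => pt c ρ θ) (Complex.exp (θ * Complex.I)) ρ := by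
  unfold pt
  have h : HasDerivAt (fun ρ : ℝ => (ρ : ℂ)) 1 ρ := Complex.ofRealCLM.hasDerivAt
  simpa using (h.mul_const (Complex.exp (θ * Complex.I))).const_add c

lemma pt_hasDerivAt_θ (c : ℂ) (ρ θ : ℝ) :
    HasDerivAt (fun θ => pt c ρ θ) (ρ * Complex.exp (θ * Complex.I) * Complex.I) θ := by
  unfold pt
  have h := ((expI_hasDerivAt θ).const_mul (ρ : ℂ)).const_add c
  rw [← mul_assoc] at h
  exact h

lemma pt_continuous (c : ℂ) : Continuous (fun x : ℝ × ℝ => pt c x.1 x.2) := by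
  unfold pt
  fun_prop

section
variable {g : ℂ → ℂ} (hg : ContDiff ℝ ∞ g) (c : ℂ)
include hg

lemma D_diff : Differentiable ℝ (fderiv ℝ g) := by
  have h : ContDiff ℝ 1 (fderiv ℝ g) := hg.fderiv_right (m := 1) (by norm_cast)
  exact h.differentiable (by norm_num)

lemma D_cont : Continuous (fderiv ℝ g) := hg.continuous_fderiv (by norm_num)

lemma DD_cont : Continuous (fderiv ℝ (fderiv ℝ g)) := by
  have h : ContDiff ℝ 1 (fderiv ℝ g) := hg.fderiv_right (m := 1) (by norm_cast)
  exact h.continuous_fderiv (by norm_num)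

lemma DD_symm (z v w : ℂ) : fderiv ℝ (fderiv ℝ g) z v w = fderiv ℝ (fderiv ℝ g) z w v := by
  have h : IsSymmSndFDerivAt ℝ g z := by
    apply ContDiffAt.isSymmSndFDerivAt (n := ∞) hg.contDiffAt
    simp only [minSmoothness_of_isRCLikeNormedField]
    norm_cast
  exact h v w

lemma u_ρ (ρ θ : ℝ) : HasDerivAt (fun ρ => g (pt c ρ θ))
    (fderiv ℝ g (pt c ρ θ) (Complex.exp (θ * Complex.I))) ρ :=
  ((hg.differentiable (by norm_num)) (pt c ρ θ)).hasFDerivAt.comp_hasDerivAt ρ
    (pt_hasDerivAt_ρ c ρ θ)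

lemma u_θ (ρ θ : ℝ) : HasDerivAt (fun θ => g (pt c ρ θ))
    (fderiv ℝ g (pt c ρ θ) (ρ * Complex.exp (θ * Complex.I) * Complex.I)) θ :=
  ((hg.differentiable (by norm_num)) (pt c ρ θ)).hasFDerivAt.comp_hasDerivAt θ
    (pt_hasDerivAt_θ c ρ θ)

lemma b_ρ (ρ θ : ℝ) : HasDerivAt
    (fun ρ : ℝ => fderiv ℝ g (pt c ρ θ) (ρ * Complex.exp (θ * Complex.I) * Complex.I))
    (fderiv ℝ (fderiv ℝ g) (pt c ρ θ) (Complex.exp (θ * Complex.I))
      (ρ * Complex.exp (θ * Complex.I) * Complex.I) +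
      fderiv ℝ g (pt c ρ θ) (Complex.exp (θ * Complex.I) * Complex.I)) ρ := by
  have h1 : HasDerivAt (fun ρ => fderiv ℝ g (pt c ρ θ))
      (fderiv ℝ (fderiv ℝ g) (pt c ρ θ) (Complex.exp (θ * Complex.I))) ρ :=
    ((D_diff hg) (pt c ρ θ)).hasFDerivAt.comp_hasDerivAt ρ (pt_hasDerivAt_ρ c ρ θ)
  have h2 : HasDerivAt (fun ρ : ℝ => (ρ * Complex.exp (θ * Complex.I) * Complex.I : ℂ))
      (Complex.exp (θ * Complex.I) * Complex.I) ρ := by
    have h : HasDerivAt (fun ρ : ℝ => (ρ : ℂ)) 1 ρ := Complex.ofRealCLM.hasDerivAt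
    simpa using (h.mul_const (Complex.exp (θ * Complex.I))).mul_const Complex.I
  exact h1.clm_apply h2

lemma a_θ (ρ θ : ℝ) : HasDerivAt
    (fun θ : ℝ => fderiv ℝ g (pt c ρ θ) (Complex.exp (θ * Complex.I)))
    (fderiv ℝ (fderiv ℝ g) (pt c ρ θ) (ρ * Complex.exp (θ * Complex.I) * Complex.I)
      (Complex.exp (θ * Complex.I)) +
      fderiv ℝ g (pt c ρ θ) (Complex.exp (θ * Complex.I) * Complex.I)) θ := by
  have h1 : HasDerivAt (fun θ => fderiv ℝ g (pt c ρ θ))
      (fderiv ℝ (fderiv ℝ g) (pt c ρ θ) (ρ * Complex.exp (θ * Complex.I) * Complex.I)) θ :=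
    ((D_diff hg) (pt c ρ θ)).hasFDerivAt.comp_hasDerivAt θ (pt_hasDerivAt_θ c ρ θ)
  exact h1.clm_apply (expI_hasDerivAt θ)

end

lemma hasDerivAt_re {f : ℝ → ℂ} {f' : ℂ} {x : ℝ} (h : HasDerivAt f f' x) :
    HasDerivAt (fun x => (f x).re) f'.re x :=
  Complex.reCLM.hasFDerivAt.comp_hasDerivAt x h

lemma hasDerivAt_im {f : ℝ → ℂ} {f' : ℂ} {x : ℝ} (h : HasDerivAt f f' x) :
    HasDerivAt (fun x => (f x).im) f'.im x :=
  Complex.imCLM.hasFDerivAt.comp_hasDerivAt x h

lemma exp_periodic (θ : ℝ) : Complex.exp (((θ + 2 * Real.pi : ℝ) : ℂ) * Complex.I) =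
    Complex.exp (θ * Complex.I) := by
  push_cast
  rw [add_mul, Complex.exp_add, Complex.exp_two_pi_mul_I, mul_one]

lemma jac_polar (L : ℂ →L[ℝ] ℂ) (ρ θ : ℝ) :
    (L (Complex.exp (θ * Complex.I))).re * (L (ρ * Complex.exp (θ * Complex.I) * Complex.I)).im -
      (L (Complex.exp (θ * Complex.I))).im * (L (ρ * Complex.exp (θ * Complex.I) * Complex.I)).re =
    ρ * ((L 1).re * (L Complex.I).im - (L Complex.I).re * (L 1).im) := by
  have hL : ∀ w : ℂ, L w = w.re • L 1 + w.im • L Complex.I := by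
    intro w
    conv_lhs => rw [← Complex.re_add_im w]
    rw [map_add, ← map_smul, ← map_smul]
    congr 2
    simp
  rw [hL (Complex.exp (θ * Complex.I)), hL (ρ * Complex.exp (θ * Complex.I) * Complex.I)]
  have h1 := Real.sin_sq_add_cos_sq θ
  simp only [Complex.add_re, Complex.add_im, Complex.real_smul, Complex.mul_re, Complex.mul_im,
    Complex.ofReal_re, Complex.ofReal_im, Complex.I_re, Complex.I_im, Complex.exp_ofReal_mul_I_re,
    Complex.exp_ofReal_mul_I_im]
  ring_nf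
  have h2 : Real.sin θ ^ 2 = 1 - Real.cos θ ^ 2 := by linarith
  rw [h2]
  ring

section
variable {g : ℂ → ℂ} (hg : ContDiff ℝ ∞ g) (c : ℂ)

/-- `Im (conj u * u_θ)` -/
noncomputable def NN (g : ℂ → ℂ) (c : ℂ) (ρ θ : ℝ) : ℝ :=
  (g (pt c ρ θ)).re * (fderiv ℝ g (pt c ρ θ) (ρ * Complex.exp (θ * Complex.I) * Complex.I)).im -
  (g (pt c ρ θ)).im * (fderiv ℝ g (pt c ρ θ) (ρ * Complex.exp (θ * Complex.I) * Complex.I)).re

/-- `Im (conj u * u_ρ)` -/
noncomputable def MM (g : ℂ → ℂ) (c : ℂ) (ρ θ : ℝ) : ℝ :=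
  (g (pt c ρ θ)).re * (fderiv ℝ g (pt c ρ θ) (Complex.exp (θ * Complex.I))).im -
  (g (pt c ρ θ)).im * (fderiv ℝ g (pt c ρ θ) (Complex.exp (θ * Complex.I))).re

/-- derivative of `NN` -/
noncomputable def NNρ (g : ℂ → ℂ) (c : ℂ) (ρ θ : ℝ) : ℝ :=
  ((fderiv ℝ g (pt c ρ θ) (Complex.exp (θ * Complex.I))).re *
    (fderiv ℝ g (pt c ρ θ) (ρ * Complex.exp (θ * Complex.I) * Complex.I)).im +
  (g (pt c ρ θ)).re * (fderiv ℝ (fderiv ℝ g) (pt c ρ θ) (Complex.exp (θ * Complex.I))
      (ρ * Complex.exp (θ * Complex.I) * Complex.I) +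
      fderiv ℝ g (pt c ρ θ) (Complex.exp (θ * Complex.I) * Complex.I)).im) -
  ((fderiv ℝ g (pt c ρ θ) (Complex.exp (θ * Complex.I))).im *
    (fderiv ℝ g (pt c ρ θ) (ρ * Complex.exp (θ * Complex.I) * Complex.I)).re +
  (g (pt c ρ θ)).im * (fderiv ℝ (fderiv ℝ g) (pt c ρ θ) (Complex.exp (θ * Complex.I))
      (ρ * Complex.exp (θ * Complex.I) * Complex.I) +
      fderiv ℝ g (pt c ρ θ) (Complex.exp (θ * Complex.I) * Complex.I)).re)

/-- derivative of `MM` -/
noncomputable def MMθ (g : ℂ → ℂ) (c : ℂ) (ρ θ : ℝ) : ℝ :=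
  ((fderiv ℝ g (pt c ρ θ) (ρ * Complex.exp (θ * Complex.I) * Complex.I)).re *
    (fderiv ℝ g (pt c ρ θ) (Complex.exp (θ * Complex.I))).im +
  (g (pt c ρ θ)).re * (fderiv ℝ (fderiv ℝ g) (pt c ρ θ)
      (ρ * Complex.exp (θ * Complex.I) * Complex.I) (Complex.exp (θ * Complex.I)) +
      fderiv ℝ g (pt c ρ θ) (Complex.exp (θ * Complex.I) * Complex.I)).im) -
  ((fderiv ℝ g (pt c ρ θ) (ρ * Complex.exp (θ * Complex.I) * Complex.I)).im *
    (fderiv ℝ g (pt c ρ θ) (Complex.exp (θ * Complex.I))).re +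
  (g (pt c ρ θ)).im * (fderiv ℝ (fderiv ℝ g) (pt c ρ θ)
      (ρ * Complex.exp (θ * Complex.I) * Complex.I) (Complex.exp (θ * Complex.I)) +
      fderiv ℝ g (pt c ρ θ) (Complex.exp (θ * Complex.I) * Complex.I)).re)

include hg

lemma NN_hasDerivAt (ρ θ : ℝ) : HasDerivAt (fun ρ => NN g c ρ θ) (NNρ g c ρ θ) ρ := by
  have h1 := u_ρ hg c ρ θ
  have h2 := b_ρ hg c ρ θ
  exact ((hasDerivAt_re h1).mul (hasDerivAt_im h2)).sub ((hasDerivAt_im h1).mul (hasDerivAt_re h2))

lemma MM_hasDerivAt (ρ θ : ℝ) : HasDerivAt (fun θ => MM g c ρ θ) (MMθ g c ρ θ) θ := by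
  have h1 := u_θ hg c ρ θ
  have h2 := a_θ hg c ρ θ
  exact ((hasDerivAt_re h1).mul (hasDerivAt_im h2)).sub ((hasDerivAt_im h1).mul (hasDerivAt_re h2))

lemma NN_sub_MM (ρ θ : ℝ) : NNρ g c ρ θ - MMθ g c ρ θ =
    2 * (ρ * Jac (fun z => fderiv ℝ g z 1) (fun z => fderiv ℝ g z Complex.I) (pt c ρ θ)) := by
  unfold Jac
  rw [← jac_polar (fderiv ℝ g (pt c ρ θ)) ρ θ]
  unfold NNρ MMθ
  rw [DD_symm hg (pt c ρ θ) (ρ * Complex.exp (θ * Complex.I) * Complex.I)
    (Complex.exp (θ * Complex.I))]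
  ring

lemma NNρ_cont : Continuous (fun x : ℝ × ℝ => NNρ g c x.1 x.2) := by
  have h0 := pt_continuous c
  have h1 : Continuous g := hg.continuous
  have h2 := D_cont hg
  have h3 := DD_cont hg
  have h4 : Continuous (fun x : ℝ × ℝ => Complex.exp (x.2 * Complex.I)) := by fun_prop
  have h5 : Continuous (fun x : ℝ × ℝ => (x.1 * Complex.exp (x.2 * Complex.I) * Complex.I : ℂ)) := by
    fun_prop
  have h6 : Continuous (fun x : ℝ × ℝ => (Complex.exp (x.2 * Complex.I) * Complex.I : ℂ)) := by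
    fun_prop
  have a1 := (h2.comp h0).clm_apply h4
  have a2 := (h2.comp h0).clm_apply h5
  have a3 := (h2.comp h0).clm_apply h6
  have a4 := ((h3.comp h0).clm_apply h4).clm_apply h5
  have a5 := h1.comp h0
  exact (((Complex.continuous_re.comp a1).mul (Complex.continuous_im.comp a2)).add
    ((Complex.continuous_re.comp a5).mul (Complex.continuous_im.comp (a4.add a3)))).sub
    (((Complex.continuous_im.comp a1).mul (Complex.continuous_re.comp a2)).add
    ((Complex.continuous_im.comp a5).mul (Complex.continuous_re.comp (a4.add a3))))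

lemma MMθ_cont : Continuous (fun x : ℝ × ℝ => MMθ g c x.1 x.2) := by
  have h0 := pt_continuous c
  have h1 : Continuous g := hg.continuous
  have h2 := D_cont hg
  have h3 := DD_cont hg
  have h4 : Continuous (fun x : ℝ × ℝ => Complex.exp (x.2 * Complex.I)) := by fun_prop
  have h5 : Continuous (fun x : ℝ × ℝ => (x.1 * Complex.exp (x.2 * Complex.I) * Complex.I : ℂ)) := by
    fun_prop
  have h6 : Continuous (fun x : ℝ × ℝ => (Complex.exp (x.2 * Complex.I) * Complex.I : ℂ)) := by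
    fun_prop
  have a1 := (h2.comp h0).clm_apply h4
  have a2 := (h2.comp h0).clm_apply h5
  have a3 := (h2.comp h0).clm_apply h6
  have a4 := ((h3.comp h0).clm_apply h5).clm_apply h4
  have a5 := h1.comp h0
  exact (((Complex.continuous_re.comp a2).mul (Complex.continuous_im.comp a1)).add
    ((Complex.continuous_re.comp a5).mul (Complex.continuous_im.comp (a4.add a3)))).sub
    (((Complex.continuous_im.comp a2).mul (Complex.continuous_re.comp a1)).add
    ((Complex.continuous_im.comp a5).mul (Complex.continuous_re.comp (a4.add a3))))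

lemma Jac_cont : Continuous (Jac (fun z => fderiv ℝ g z 1) (fun z => fderiv ℝ g z Complex.I)) := by
  have h1 : Continuous (fun z => fderiv ℝ g z 1) := (D_cont hg).clm_apply continuous_const
  have h2 : Continuous (fun z => fderiv ℝ g z Complex.I) := (D_cont hg).clm_apply continuous_const
  exact ((Complex.continuous_re.comp h1).mul (Complex.continuous_im.comp h2)).sub
    ((Complex.continuous_re.comp h2).mul (Complex.continuous_im.comp h1))

/-- Green's formula on a disc in polar coordinates -/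
theorem green {r : ℝ} (hr : 0 < r) :
    ∫ z in ball c r, Jac (fun z => fderiv ℝ g z 1) (fun z => fderiv ℝ g z Complex.I) z =
      1 / 2 * ∫ θ in (-Real.pi)..Real.pi, NN g c r θ := by
  rw [polar_ball _ c hr.le (Jac_cont hg).continuousOn]
  have hN : ∀ ρ : ℝ, Continuous (fun θ => NNρ g c ρ θ) := fun ρ =>
    (NNρ_cont hg c).comp (by fun_prop : Continuous (fun θ : ℝ => (ρ, θ)))
  have hM : ∀ ρ : ℝ, Continuous (fun θ => MMθ g c ρ θ) := fun ρ =>
    (MMθ_cont hg c).comp (by fun_prop : Continuous (fun θ : ℝ => (ρ, θ)))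
  have hN' : ∀ θ : ℝ, Continuous (fun ρ => NNρ g c ρ θ) := fun θ =>
    (NNρ_cont hg c).comp (by fun_prop : Continuous (fun ρ : ℝ => (ρ, θ)))
  have e1 : ∀ ρ : ℝ, ∫ θ in (-Real.pi)..Real.pi, ρ *
      Jac (fun z => fderiv ℝ g z 1) (fun z => fderiv ℝ g z Complex.I)
        (c + ρ * Complex.exp (θ * Complex.I)) =
      1 / 2 * ∫ θ in (-Real.pi)..Real.pi, NNρ g c ρ θ := by
    intro ρ
    have h1 : ∫ θ in (-Real.pi)..Real.pi, MMθ g c ρ θ = 0 := by
      rw [intervalIntegral.integral_eq_sub_of_hasDerivAt (fun θ _ => MM_hasDerivAt hg c ρ θ)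
        ((hM ρ).intervalIntegrable _ _)]
      have h2 : MM g c ρ Real.pi = MM g c ρ (-Real.pi) := by
        have h3 := exp_periodic (-Real.pi)
        have h4 : -Real.pi + 2 * Real.pi = Real.pi := by ring
        rw [h4] at h3
        unfold MM pt
        rw [h3]
      rw [h2, sub_self]
    have h2 : ∫ θ in (-Real.pi)..Real.pi, (NNρ g c ρ θ - MMθ g c ρ θ) =
        ∫ θ in (-Real.pi)..Real.pi, NNρ g c ρ θ := by
      rw [intervalIntegral.integral_sub ((hN ρ).intervalIntegrable _ _)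
        ((hM ρ).intervalIntegrable _ _), h1, sub_zero]
    rw [← h2, ← intervalIntegral.integral_const_mul]
    apply intervalIntegral.integral_congr
    intro θ _
    show ρ * Jac _ _ (pt c ρ θ) = 1 / 2 * (NNρ g c ρ θ - MMθ g c ρ θ)
    rw [NN_sub_MM hg c ρ θ]
    ring
  rw [intervalIntegral.integral_congr (fun ρ _ => e1 ρ), intervalIntegral.integral_const_mul]
  congr 1
  rw [intervalIntegral_intervalIntegral_swap]
  · apply intervalIntegral.integral_congr
    intro θ _
    show ∫ ρ in (0 : ℝ)..r, NNρ g c ρ θ = NN g c r θ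
    rw [intervalIntegral.integral_eq_sub_of_hasDerivAt (fun ρ _ => NN_hasDerivAt hg c ρ θ)
      ((hN' θ).intervalIntegrable _ _)]
    have : NN g c 0 θ = 0 := by
      unfold NN
      simp
    rw [this, sub_zero]
  · have h1 : Continuous (Function.uncurry (fun ρ θ => NNρ g c ρ θ)) := NNρ_cont hg c
    apply (h1.continuousOn.integrableOn_compact (isCompact_uIcc.prod isCompact_uIcc)
      (μ := volume) (K := uIcc 0 r ×ˢ uIcc (-Real.pi) Real.pi)).mono_set
    exact prod_mono uIoc_subset_uIcc uIoc_subset_uIcc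

end

theorem main_iso : Pool.Agent.W796.PH.S_Iso := by
  intro g hg c r hr
  rw [green hg c hr]
  apply mul_le_mul_of_nonneg_left _ (by norm_num)
  have hper : ∀ θ, pt c r (θ + 2 * Real.pi) = pt c r θ := by
    intro θ
    unfold pt
    rw [exp_periodic]
  have h4 : Continuous (fun x : ℝ => (r * Complex.exp (x * Complex.I) * Complex.I : ℂ)) := by
    fun_prop
  have h5 : Continuous (fun x : ℝ => pt c r x) :=
    (pt_continuous c).comp (by fun_prop : Continuous (fun θ : ℝ => (r, θ)))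
  have hb : Continuous (fun θ : ℝ => fderiv ℝ g (pt c r θ)
      (r * Complex.exp (θ * Complex.I) * Complex.I)) := ((D_cont hg).comp h5).clm_apply h4
  have h := circ (fun θ => (g (pt c r θ)).re) (fun θ => (g (pt c r θ)).im)
    (fun θ => (fderiv ℝ g (pt c r θ) (r * Complex.exp (θ * Complex.I) * Complex.I)).re)
    (fun θ => (fderiv ℝ g (pt c r θ) (r * Complex.exp (θ * Complex.I) * Complex.I)).im)
    (fun θ => hasDerivAt_re (u_θ hg c r θ)) (fun θ => hasDerivAt_im (u_θ hg c r θ))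
    (Complex.continuous_re.comp hb) (Complex.continuous_im.comp hb)
    (fun θ => by rw [hper]) (fun θ => by rw [hper])
  refine h.trans (le_of_eq ?_)
  apply intervalIntegral.integral_congr
  intro θ _
  simp only []
  rw [← Complex.normSq_eq_norm_sq, Complex.normSq_apply]
  unfold pt
  ring

end Pool.Agent.W585.PHG
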