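import Mathlib
import Pool.Agent.W585.PHG.Fub
import Pool.Agent.W585.PHG.Iso

set_option autoImplicit false

open MeasureTheory Metric Set Filter Topology
open scoped ContDiff ENNReal ComplexConjugate
open Pool.Agent.Helper366.IV (W QR Jac)
open Pool.Agent.W796.PH

namespace Pool.Agent.W585.PHG

/-- the open annulus -/
def Ann (c : ℂ) (a b : ℝ) : Set ℂ := {z | a < ‖z - c‖ ∧ ‖z - c‖ < b}

lemma Ann_meas (c : ℂ) (a b : ℝ) : MeasurableSet (Ann c a b) := by
  apply MeasurableSet.inter
  · exact (isOpen_lt continuous_const (continuous_id.sub continuous_const).norm).measurableSet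
  · exact (isOpen_lt (continuous_id.sub continuous_const).norm continuous_const).measurableSet

lemma Ann_sub (c : ℂ) (a b : ℝ) : Ann c a b ⊆ ball c b := by
  intro z hz
  rw [mem_ball, dist_eq_norm]
  exact hz.2

lemma wt_cont (c : ℂ) {a b : ℝ} (ha : 0 < a) (m : ℝ → ℝ) (hm : ContinuousOn m (Icc a b)) :
    ContinuousOn (fun z : ℂ => m ‖z - c‖ / (2 * ‖z - c‖)) {z | a ≤ ‖z - c‖ ∧ ‖z - c‖ ≤ b} := by
  have h1 : Continuous (fun z : ℂ => ‖z - c‖) := (continuous_id.sub continuous_const).norm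
  apply ContinuousOn.div
  · exact hm.comp h1.continuousOn (fun z hz => hz)
  · exact (continuous_const.mul h1).continuousOn
  · intro z hz
    have : 0 < ‖z - c‖ := ha.trans_le hz.1
    positivity

/-- the growth inequality for smooth maps -/
theorem smooth_case (Q : ℂ → ℂ) (hQ : ContDiff ℝ ∞ Q) (c : ℂ) {a b : ℝ}
    (ha : 0 < a) (hab : a ≤ b) (m : ℝ → ℝ) (hm : ContinuousOn m (Icc a b))
    (hm0 : ∀ r ∈ Icc a b, 0 ≤ m r) :
    ∫ z in ball c b, Jac (fun z => fderiv ℝ Q z 1) (fun z => fderiv ℝ Q z Complex.I) z *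
      ∫ r in (max a ‖z - c‖)..b, m r ≤
    ∫ z in Ann c a b, m ‖z - c‖ / (2 * ‖z - c‖) * ‖fderiv ℝ Q z ((z - c) * Complex.I)‖ ^ 2 := by
  set J : ℂ → ℝ := Jac (fun z => fderiv ℝ Q z 1) (fun z => fderiv ℝ Q z Complex.I) with hJ
  have hJi : IntegrableOn J (ball c b) :=
    ((Jac_cont hQ).continuousOn.integrableOn_compact (isCompact_closedBall c b)).mono_set
      ball_subset_closedBall
  obtain ⟨f1, f2⟩ := fub J m c hab hJi hm
  rw [← f2]
  have hD := D_cont hQ
  have hn : Continuous (fun z : ℂ => ‖fderiv ℝ Q z ((z - c) * Complex.I)‖ ^ 2) :=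
    ((hD.clm_apply (by fun_prop)).norm).pow 2
  have hF : ContinuousOn (fun z : ℂ => m ‖z - c‖ / (2 * ‖z - c‖) *
      ‖fderiv ℝ Q z ((z - c) * Complex.I)‖ ^ 2) {z | a ≤ ‖z - c‖ ∧ ‖z - c‖ ≤ b} :=
    (wt_cont c ha m hm).mul hn.continuousOn
  unfold Ann
  rw [polar_annulus _ c ha.le hab hF]
  set G : ℝ → ℝ := fun r => ∫ θ in (-Real.pi)..Real.pi,
      ‖fderiv ℝ Q (c + r * Complex.exp (θ * Complex.I))
        (r * Complex.exp (θ * Complex.I) * Complex.I)‖ ^ 2 with hG
  have hGc : Continuous G := by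
    apply intervalIntegral.continuous_parametric_intervalIntegral_of_continuous'
    have h1 : Continuous (fun p : ℝ × ℝ => fderiv ℝ Q (c + p.1 * Complex.exp (p.2 * Complex.I))
        (p.1 * Complex.exp (p.2 * Complex.I) * Complex.I)) :=
      (hD.comp (by fun_prop)).clm_apply (by fun_prop)
    exact h1.norm.pow 2
  have e1 : ∀ r ∈ uIcc a b, ∫ θ in (-Real.pi)..Real.pi, r *
      (m ‖c + r * Complex.exp (θ * Complex.I) - c‖ /
        (2 * ‖c + r * Complex.exp (θ * Complex.I) - c‖) *
      ‖fderiv ℝ Q (c + r * Complex.exp (θ * Complex.I))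
        ((c + r * Complex.exp (θ * Complex.I) - c) * Complex.I)‖ ^ 2) = m r * (1 / 2 * G r) := by
    intro r hr
    rw [uIcc_of_le hab] at hr
    have hr0 : 0 < r := ha.trans_le hr.1
    have e2 : ∀ θ : ℝ, r *
      (m ‖c + r * Complex.exp (θ * Complex.I) - c‖ /
        (2 * ‖c + r * Complex.exp (θ * Complex.I) - c‖) *
      ‖fderiv ℝ Q (c + r * Complex.exp (θ * Complex.I))
        ((c + r * Complex.exp (θ * Complex.I) - c) * Complex.I)‖ ^ 2) =
        (m r * (1 / 2)) * ‖fderiv ℝ Q (c + r * Complex.exp (θ * Complex.I))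
        (r * Complex.exp (θ * Complex.I) * Complex.I)‖ ^ 2 := by
      intro θ
      have e3 : ‖(r : ℂ) * Complex.exp (θ * Complex.I)‖ = r := by
        rw [norm_mul, Complex.norm_exp_ofReal_mul_I, mul_one, Complex.norm_real,
          Real.norm_of_nonneg hr0.le]
      rw [add_sub_cancel_left, e3]
      field_simp
    rw [intervalIntegral.integral_congr (fun θ _ => e2 θ), intervalIntegral.integral_const_mul]
    ring
  rw [intervalIntegral.integral_congr e1]
  have hmi : IntervalIntegrable m volume a b := by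
    apply ContinuousOn.intervalIntegrable
    rwa [uIcc_of_le hab]
  apply intervalIntegral.integral_mono_on hab f1
  · exact hmi.mul_continuousOn (continuous_const.mul hGc).continuousOn
  · intro r hr
    apply mul_le_mul_of_nonneg_left _ (hm0 r hr)
    exact main_iso Q hQ c r (ha.trans_le hr.1)

lemma det_le (u v : ℂ) : |u.re * v.im - v.re * u.im| ≤ ‖u‖ * ‖v‖ := by
  apply abs_le_of_sq_le_sq _ (by positivity)
  have nsq : ∀ z : ℂ, ‖z‖ ^ 2 = z.re ^ 2 + z.im ^ 2 := by
    intro z
    rw [← Complex.normSq_eq_norm_sq, Complex.normSq_apply]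
    ring
  rw [mul_pow, nsq u, nsq v]
  nlinarith [sq_nonneg (u.re * v.re + u.im * v.im)]

lemma jac_diff (X Y x y : ℂ) : |(X.re * Y.im - Y.re * X.im) - (x.re * y.im - y.re * x.im)| ≤
    (‖X - x‖ + ‖Y - y‖) * ((‖X - x‖ + ‖Y - y‖) + 2 * (‖x‖ + ‖y‖)) := by
  have h1 := det_le x (Y - y)
  have h2 := det_le (X - x) y
  have h3 := det_le (X - x) (Y - y)
  have e : (X.re * Y.im - Y.re * X.im) - (x.re * y.im - y.re * x.im) =
      (x.re * (Y - y).im - (Y - y).re * x.im) + ((X - x).re * y.im - y.re * (X - x).im) +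
      ((X - x).re * (Y - y).im - (Y - y).re * (X - x).im) := by
    simp only [Complex.sub_re, Complex.sub_im]
    ring
  rw [e]
  refine (abs_add_three _ _ _).trans ?_
  have a1 := norm_nonneg (X - x)
  have a2 := norm_nonneg (Y - y)
  have a3 := norm_nonneg x
  have a4 := norm_nonneg y
  have b1 := mul_nonneg a1 a1
  have b2 := mul_nonneg a2 a2
  have b3 := mul_nonneg a1 a2
  have b4 := mul_nonneg a1 a3
  have b5 := mul_nonneg a1 a4
  have b6 := mul_nonneg a2 a3
  have b7 := mul_nonneg a2 a4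
  nlinarith

lemma tan_diff (X Y x y : ℂ) (α β b : ℝ) (hb : 0 ≤ b) (hα : |α| ≤ b) (hβ : |β| ≤ b) :
    |‖α • X + β • Y‖ ^ 2 - ‖α • x + β • y‖ ^ 2| ≤
    b ^ 2 * ((‖X - x‖ + ‖Y - y‖) * ((‖X - x‖ + ‖Y - y‖) + 2 * (‖x‖ + ‖y‖))) := by
  set ξ : ℂ := α • X + β • Y with hξ
  set η : ℂ := α • x + β • y with hη
  have h1 : ‖ξ - η‖ ≤ b * (‖X - x‖ + ‖Y - y‖) := by
    have e : ξ - η = α • (X - x) + β • (Y - y) := by
      rw [hξ, hη, smul_sub, smul_sub]; ring
    rw [e]
    refine (norm_add_le _ _).trans ?_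
    rw [norm_smul, norm_smul, Real.norm_eq_abs, Real.norm_eq_abs, mul_add]
    exact add_le_add (mul_le_mul_of_nonneg_right hα (norm_nonneg _))
      (mul_le_mul_of_nonneg_right hβ (norm_nonneg _))
  have h2 : ‖η‖ ≤ b * (‖x‖ + ‖y‖) := by
    rw [hη]
    refine (norm_add_le _ _).trans ?_
    rw [norm_smul, norm_smul, Real.norm_eq_abs, Real.norm_eq_abs, mul_add]
    exact add_le_add (mul_le_mul_of_nonneg_right hα (norm_nonneg _))
      (mul_le_mul_of_nonneg_right hβ (norm_nonneg _))
  have h3 : |‖ξ‖ - ‖η‖| ≤ ‖ξ - η‖ := abs_norm_sub_norm_le ξ η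
  have h4 : ‖ξ‖ + ‖η‖ ≤ ‖ξ - η‖ + 2 * ‖η‖ := by
    have : ‖ξ‖ ≤ ‖ξ - η‖ + ‖η‖ := by
      calc ‖ξ‖ = ‖(ξ - η) + η‖ := by rw [sub_add_cancel]
        _ ≤ _ := norm_add_le _ _
    linarith
  have e : ‖ξ‖ ^ 2 - ‖η‖ ^ 2 = (‖ξ‖ - ‖η‖) * (‖ξ‖ + ‖η‖) := by ring
  rw [e, abs_mul, abs_of_nonneg (by positivity : 0 ≤ ‖ξ‖ + ‖η‖)]
  calc |‖ξ‖ - ‖η‖| * (‖ξ‖ + ‖η‖) ≤ (b * (‖X - x‖ + ‖Y - y‖)) *
        (b * (‖X - x‖ + ‖Y - y‖) + 2 * (b * (‖x‖ + ‖y‖))) := by
        apply mul_le_mul (h3.trans h1) _ (by positivity) (by positivity)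
        linarith
    _ = _ := by ring

/-- pointwise use of quasiregularity on circles -/
lemma qr_circ {c : ℂ} {a b : ℝ} {κ : ℝ → ℝ} {qx qy : ℂ → ℂ} (hκ : ContinuousOn κ (Icc a b))
    (hκ1 : ∀ r ∈ Icc a b, 1 ≤ κ r)
    (hQR : ∀ r ∈ Icc a b, QR (κ r + 1 / κ r) (ball c r) qx qy) :
    ∀ᵐ z ∂(volume.restrict (Ann c a b)), ‖qx z‖ ^ 2 + ‖qy z‖ ^ 2 ≤
      (κ ‖z - c‖ + 1 / κ ‖z - c‖) * Jac qx qy z := by
  have h1 : ∀ᵐ z ∂(volume : Measure ℂ), ∀ s : ℚ, (s : ℝ) ∈ Icc a b → z ∈ ball c (s : ℝ) →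
      ‖qx z‖ ^ 2 + ‖qy z‖ ^ 2 ≤ (κ s + 1 / κ s) * Jac qx qy z := by
    rw [ae_all_iff]
    intro s
    by_cases hs : (s : ℝ) ∈ Icc a b
    · have h2 := hQR s hs
      unfold QR at h2
      rw [ae_restrict_iff' measurableSet_ball] at h2
      filter_upwards [h2] with z hz _ hzs
      exact hz hzs
    · exact Eventually.of_forall (fun z h => absurd h hs)
  rw [ae_restrict_iff' (Ann_meas c a b)]
  filter_upwards [h1] with z hz hzA
  have hr0 : ‖z - c‖ ∈ Ioo a b := hzA
  set r0 : ℝ := ‖z - c‖ with hr0d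
  by_contra hcon
  push Not at hcon
  have hnb : Icc a b ∈ 𝓝 r0 := Icc_mem_nhds hr0.1 hr0.2
  have hκc : ContinuousAt κ r0 := hκ.continuousAt hnb
  have hκ0 : κ r0 ≠ 0 := by
    have := hκ1 r0 ⟨hr0.1.le, hr0.2.le⟩
    linarith
  have hφ : ContinuousAt (fun r => (κ r + 1 / κ r) * Jac qx qy z) r0 :=
    (hκc.add (continuousAt_const.div hκc hκ0)).mul continuousAt_const
  have h3 : ∀ᶠ r in 𝓝 r0, (κ r + 1 / κ r) * Jac qx qy z < ‖qx z‖ ^ 2 + ‖qy z‖ ^ 2 :=
    hφ.eventually_lt continuousAt_const hcon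
  have h4 := h3.and (Ioo_mem_nhds hr0.1 hr0.2)
  obtain ⟨ε, hε, hball⟩ := Metric.eventually_nhds_iff.1 h4
  obtain ⟨s, hs1, hs2⟩ := exists_rat_btwn (show r0 < r0 + ε by linarith)
  have h5 : dist (s : ℝ) r0 < ε := by
    rw [Real.dist_eq, abs_of_pos (by linarith)]
    linarith
  obtain ⟨h6, h7⟩ := hball h5
  have h8 := hz s ⟨h7.1.le, h7.2.le⟩ (by
    rw [mem_ball, dist_eq_norm]
    exact hs1)
  linarith

/-- the limit of the smooth inequality -/
theorem limit_case {c : ℂ} {R : ℝ} {q qx qy : ℂ → ℂ} (hSW : SW (ball c R) q qx qy)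
    {a b : ℝ} (ha : 0 < a) (hab : a ≤ b) (hbR : b < R) (m : ℝ → ℝ)
    (hm : ContinuousOn m (Icc a b)) (hm0 : ∀ r ∈ Icc a b, 0 ≤ m r) :
    ∫ z in ball c b, Jac qx qy z * ∫ r in (max a ‖z - c‖)..b, m r ≤
    ∫ z in Ann c a b, m ‖z - c‖ / (2 * ‖z - c‖) *
      ‖((z - c) * Complex.I).re • qx z + ((z - c) * Complex.I).im • qy z‖ ^ 2 := by
  have hb0 : 0 < b := ha.trans_le hab
  set K : Set ℂ := closedBall c b with hK
  have hKc : IsCompact K := isCompact_closedBall c b
  have hKs : K ⊆ ball c R := closedBall_subset_ball hbR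
  obtain ⟨Q, hQs, -, hQx, hQy⟩ := hSW.approx K hKc hKs
  have hx := hSW.memx K hKc hKs
  have hy := hSW.memy K hKc hKs
  have hXc : ∀ n, Continuous (fun z => fderiv ℝ (Q n) z 1) := fun n =>
    (D_cont (hQs n)).clm_apply continuous_const
  have hYc : ∀ n, Continuous (fun z => fderiv ℝ (Q n) z Complex.I) := fun n =>
    (D_cont (hQs n)).clm_apply continuous_const
  have hX : ∀ n, MemLp (fun z => fderiv ℝ (Q n) z 1) 2 (volume.restrict K) := fun n =>
    Pool.Agent.Helper366.IV.j1865_mem hKc (hXc n).continuousOn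
  have hY : ∀ n, MemLp (fun z => fderiv ℝ (Q n) z Complex.I) 2 (volume.restrict K) := fun n =>
    Pool.Agent.Helper366.IV.j1865_mem hKc (hYc n).continuousOn
  set e : ℕ → ℂ → ℝ := fun n z => ‖fderiv ℝ (Q n) z 1 - qx z‖ + ‖fderiv ℝ (Q n) z Complex.I - qy z‖
    with he
  set s : ℂ → ℝ := fun z => 2 * (‖qx z‖ + ‖qy z‖) with hs
  have hem : ∀ n, MemLp (e n) 2 (volume.restrict K) := fun n =>
    ((hX n).sub hx).norm.add ((hY n).sub hy).norm
  have hsm : MemLp s 2 (volume.restrict K) := (hx.norm.add hy.norm).const_mul 2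
  have he0 : Tendsto (fun n => eLpNorm (e n) 2 (volume.restrict K)) atTop (𝓝 0) := by
    have h1 := hQx.add hQy
    rw [add_zero] at h1
    refine tendsto_of_tendsto_of_tendsto_of_le_of_le tendsto_const_nhds h1 (fun n => zero_le)
      (fun n => ?_)
    have h2 := eLpNorm_add_le (p := 2) ((hX n).sub hx).norm.1 ((hY n).sub hy).norm.1 (by norm_num)
    refine h2.trans (le_of_eq ?_)
    congr 1
    · exact eLpNorm_norm _
    · exact eLpNorm_norm _
  have hBK : ball c b ⊆ K := ball_subset_closedBall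
  have hAK : Ann c a b ⊆ K := (Ann_sub c a b).trans hBK
  have emB : ∀ n, MemLp (e n) 2 (volume.restrict (ball c b)) := fun n =>
    (hem n).mono_measure (Measure.restrict_mono hBK le_rfl)
  have emA : ∀ n, MemLp (e n) 2 (volume.restrict (Ann c a b)) := fun n =>
    (hem n).mono_measure (Measure.restrict_mono hAK le_rfl)
  have smB : MemLp s 2 (volume.restrict (ball c b)) :=
    hsm.mono_measure (Measure.restrict_mono hBK le_rfl)
  have smA : MemLp s 2 (volume.restrict (Ann c a b)) :=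
    hsm.mono_measure (Measure.restrict_mono hAK le_rfl)
  have eB0 : Tendsto (fun n => eLpNorm (e n) 2 (volume.restrict (ball c b))) atTop (𝓝 0) :=
    tendsto_of_tendsto_of_tendsto_of_le_of_le tendsto_const_nhds he0 (fun n => zero_le)
      (fun n => eLpNorm_mono_measure _ (Measure.restrict_mono hBK le_rfl))
  have eA0 : Tendsto (fun n => eLpNorm (e n) 2 (volume.restrict (Ann c a b))) atTop (𝓝 0) :=
    tendsto_of_tendsto_of_tendsto_of_le_of_le tendsto_const_nhds he0 (fun n => zero_le)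
      (fun n => eLpNorm_mono_measure _ (Measure.restrict_mono hAK le_rfl))
  obtain ⟨C0, hC0⟩ := isCompact_Icc.exists_bound_of_continuousOn hm
  have hC0' : 0 ≤ C0 := (norm_nonneg _).trans (hC0 a ⟨le_rfl, hab⟩)
  -- the weight in the first integral
  set M : ℂ → ℝ := fun z => ∫ r in (max a ‖z - c‖)..b, m r with hM
  have hMb : ∀ z ∈ ball c b, ‖M z‖ ≤ C0 * b := by
    intro z hz
    rw [mem_ball, dist_eq_norm] at hz
    have h1 : max a ‖z - c‖ ≤ b := max_le hab hz.le
    have h2 : ‖M z‖ ≤ C0 * |b - max a ‖z - c‖| := by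
      apply intervalIntegral.norm_integral_le_of_norm_le_const
      intro r hr
      rw [uIoc_of_le h1] at hr
      exact hC0 r ⟨(le_max_left _ _).trans hr.1.le, hr.2⟩
    refine h2.trans (mul_le_mul_of_nonneg_left ?_ hC0')
    rw [abs_of_nonneg (by linarith)]
    have : 0 ≤ max a ‖z - c‖ := ha.le.trans (le_max_left _ _)
    linarith
  have hMc : ContinuousOn M (ball c b) := by
    have h1 : ContinuousOn (fun x => ∫ r in x..b, m r) (Icc a b) := by
      have h2 : ContinuousOn (fun x => ∫ r in b..x, m r) (Icc a b) := by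
        have h3 := intervalIntegral.continuousOn_primitive_interval' (μ := volume) (f := m)
          (a := b) (b₁ := a) (b₂ := b) ?_ right_mem_uIcc
        · rwa [uIcc_of_le hab] at h3
        · apply ContinuousOn.intervalIntegrable
          rwa [uIcc_of_le hab]
      refine h2.neg.congr (fun x _ => ?_)
      exact intervalIntegral.integral_symm _ _
    refine h1.comp (g := fun x => ∫ r in x..b, m r) (f := fun z : ℂ => max a ‖z - c‖) ?_ ?_
    · exact (continuous_const.max (continuous_id.sub continuous_const).norm).continuousOn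
    · intro z hz
      rw [mem_ball, dist_eq_norm] at hz
      exact ⟨le_max_left _ _, max_le hab hz.le⟩
  have hMm : AEStronglyMeasurable M (volume.restrict (ball c b)) :=
    hMc.aestronglyMeasurable measurableSet_ball
  have hMae : ∀ᵐ z ∂(volume.restrict (ball c b)), ‖M z‖ ≤ C0 * b :=
    (ae_restrict_iff' measurableSet_ball).2 (Eventually.of_forall hMb)
  have hJn : ∀ n, IntegrableOn (Jac (fun z => fderiv ℝ (Q n) z 1)
      (fun z => fderiv ℝ (Q n) z Complex.I)) (ball c b) := fun n =>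
    ((Jac_cont (hQs n)).continuousOn.integrableOn_compact hKc).mono_set hBK
  have hJq : IntegrableOn (Jac qx qy) K :=
    (hx.re.integrable_mul hy.im).sub (hy.re.integrable_mul hx.im)
  have L1 : Tendsto (fun n => ∫ z in ball c b, Jac (fun z => fderiv ℝ (Q n) z 1)
      (fun z => fderiv ℝ (Q n) z Complex.I) z * M z) atTop
      (𝓝 (∫ z in ball c b, Jac qx qy z * M z)) := by
    apply L1lim smB emB eB0 _ _ (C0 * b)
    · intro n
      filter_upwards [hMae] with z hz
      rw [← sub_mul, abs_mul]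
      have h1 := jac_diff (fderiv ℝ (Q n) z 1) (fderiv ℝ (Q n) z Complex.I) (qx z) (qy z)
      have h2 : 0 ≤ C0 * b := by positivity
      calc _ ≤ (e n z * (e n z + s z)) * (C0 * b) :=
            mul_le_mul h1 hz (abs_nonneg _) (by positivity)
        _ = _ := by ring
    · intro n
      exact (hJn n).mul_bdd (c := C0 * b) hMm hMae
    · exact (hJq.mono_set hBK).mul_bdd (c := C0 * b) hMm hMae
  -- the weight in the second integral
  set t : ℂ → ℝ := fun z => m ‖z - c‖ / (2 * ‖z - c‖) with ht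
  have htb : ∀ z ∈ Ann c a b, |t z| ≤ C0 / (2 * a) := by
    intro z hz
    rw [ht]
    simp only []
    have h0 : 0 < ‖z - c‖ := ha.trans hz.1
    rw [abs_div, abs_of_pos (by positivity : 0 < 2 * ‖z - c‖)]
    apply div_le_div₀ hC0' (hC0 _ ⟨hz.1.le, hz.2.le⟩) (by positivity)
    linarith [hz.1]
  have hAm := Ann_meas c a b
  have htm : AEStronglyMeasurable t (volume.restrict (Ann c a b)) :=
    ((wt_cont c ha m hm).mono (fun z hz => ⟨hz.1.le, hz.2.le⟩)).aestronglyMeasurable hAm
  have htae : ∀ᵐ z ∂(volume.restrict (Ann c a b)), ‖t z‖ ≤ C0 / (2 * a) :=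
    (ae_restrict_iff' hAm).2 (Eventually.of_forall htb)
  have hzae : ∀ᵐ z ∂(volume.restrict (Ann c a b)), ‖z - c‖ ≤ b :=
    (ae_restrict_iff' hAm).2 (Eventually.of_forall (fun z hz => hz.2.le))
  have hlin : ∀ n z, fderiv ℝ (Q n) z ((z - c) * Complex.I) =
      ((z - c) * Complex.I).re • fderiv ℝ (Q n) z 1 +
      ((z - c) * Complex.I).im • fderiv ℝ (Q n) z Complex.I := by
    intro n z
    have h1 : ∀ u : ℂ, fderiv ℝ (Q n) z u = u.re • fderiv ℝ (Q n) z 1 +
        u.im • fderiv ℝ (Q n) z Complex.I := by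
      intro u
      conv_lhs => rw [← Complex.re_add_im u]
      rw [map_add, ← map_smul, ← map_smul]
      congr 2
      simp
    exact h1 _
  have hcoe : ∀ z, ‖z - c‖ ≤ b → |((z - c) * Complex.I).re| ≤ b ∧ |((z - c) * Complex.I).im| ≤ b := by
    intro z hz
    have h1 : ‖(z - c) * Complex.I‖ ≤ b := by
      rw [norm_mul, Complex.norm_I, mul_one]
      exact hz
    exact ⟨(Complex.abs_re_le_norm _).trans h1, (Complex.abs_im_le_norm _).trans h1⟩
  have hcc : Continuous (fun z : ℂ => (z - c) * Complex.I) := by fun_prop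
  have hxA := hx.mono_measure (Measure.restrict_mono hAK le_rfl)
  have hyA := hy.mono_measure (Measure.restrict_mono hAK le_rfl)
  have hpm : AEStronglyMeasurable (fun z => t z *
      ‖((z - c) * Complex.I).re • qx z + ((z - c) * Complex.I).im • qy z‖ ^ 2)
      (volume.restrict (Ann c a b)) := by
    apply htm.mul
    have h1 : AEStronglyMeasurable (fun z => ((z - c) * Complex.I).re • qx z)
        (volume.restrict (Ann c a b)) :=
      (Complex.continuous_re.comp hcc).aestronglyMeasurable.smul hxA.1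
    have h2 : AEStronglyMeasurable (fun z => ((z - c) * Complex.I).im • qy z)
        (volume.restrict (Ann c a b)) :=
      (Complex.continuous_im.comp hcc).aestronglyMeasurable.smul hyA.1
    exact (h1.add h2).norm.pow 2
  have hCa : 0 ≤ C0 / (2 * a) := by positivity
  have L2 : Tendsto (fun n => ∫ z in Ann c a b, t z * ‖fderiv ℝ (Q n) z ((z - c) * Complex.I)‖ ^ 2)
      atTop (𝓝 (∫ z in Ann c a b, t z *
      ‖((z - c) * Complex.I).re • qx z + ((z - c) * Complex.I).im • qy z‖ ^ 2)) := by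
    apply L1lim smA emA eA0 _ _ (C0 / (2 * a) * b ^ 2)
    · intro n
      filter_upwards [htae, hzae] with z hz hzb
      rw [hlin n z, ← mul_sub, abs_mul, mul_assoc]
      obtain ⟨h1, h2⟩ := hcoe z hzb
      exact mul_le_mul hz (tan_diff _ _ _ _ _ _ b hb0.le h1 h2) (abs_nonneg _) hCa
    · intro n
      have hn : Continuous (fun z : ℂ => ‖fderiv ℝ (Q n) z ((z - c) * Complex.I)‖ ^ 2) :=
        (((D_cont (hQs n)).clm_apply (by fun_prop)).norm).pow 2
      have h1 : IntegrableOn (fun z : ℂ => ‖fderiv ℝ (Q n) z ((z - c) * Complex.I)‖ ^ 2)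
          (Ann c a b) := (hn.continuousOn.integrableOn_compact hKc).mono_set hAK
      exact h1.bdd_mul (c := C0 / (2 * a)) htm htae
    · have h1 : Integrable (fun z => (C0 / (2 * a)) * (b ^ 2 * ((‖qx z‖ + ‖qy z‖) *
          (‖qx z‖ + ‖qy z‖)))) (volume.restrict (Ann c a b)) :=
        (((hxA.norm.add hyA.norm).integrable_mul (hxA.norm.add hyA.norm)).const_mul _).const_mul _
      refine h1.mono' hpm ?_
      filter_upwards [htae, hzae] with z hz hzb
      obtain ⟨h3, h4⟩ := hcoe z hzb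
      rw [norm_mul]
      apply mul_le_mul hz _ (norm_nonneg _) hCa
      rw [norm_pow, norm_norm]
      have h5 : ‖((z - c) * Complex.I).re • qx z + ((z - c) * Complex.I).im • qy z‖ ≤
          b * (‖qx z‖ + ‖qy z‖) := by
        refine (norm_add_le _ _).trans ?_
        rw [norm_smul, norm_smul, Real.norm_eq_abs, Real.norm_eq_abs, mul_add]
        exact add_le_add (mul_le_mul_of_nonneg_right h3 (norm_nonneg _))
          (mul_le_mul_of_nonneg_right h4 (norm_nonneg _))
      calc _ ≤ (b * (‖qx z‖ + ‖qy z‖)) ^ 2 := pow_le_pow_left₀ (norm_nonneg _) h5 2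
        _ = _ := by ring
  exact le_of_tendsto_of_tendsto' L1 L2 (fun n => smooth_case (Q n) (hQs n) c ha hab m hm hm0)

theorem main_grow : S_Grow := by
  intro c R q qx qy hSW a b ha hab hbR κ w w' hκ hκ1 hw0 hw hw' hdiff hQR
  have hb0 : 0 < b := ha.trans_le hab
  set K : Set ℂ := closedBall c b with hK
  have hKc : IsCompact K := isCompact_closedBall c b
  have hKs : K ⊆ ball c R := closedBall_subset_ball hbR
  have hx := hSW.memx K hKc hKs
  have hy := hSW.memy K hKc hKs
  have hBK : ball c b ⊆ K := ball_subset_closedBall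
  have hAB : Ann c a b ⊆ ball c b := Ann_sub c a b
  have hAm := Ann_meas c a b
  set f : ℂ → ℝ := fun z => ‖qx z‖ ^ 2 + ‖qy z‖ ^ 2 with hf
  have hf0 : ∀ z, 0 ≤ f z := fun z => by positivity
  have hfK : IntegrableOn f K := hx.norm.integrable_sq.add hy.norm.integrable_sq
  have hfB : IntegrableOn f (ball c b) := hfK.mono_set hBK
  have hJK : IntegrableOn (Jac qx qy) K :=
    (hx.re.integrable_mul hy.im).sub (hy.re.integrable_mul hx.im)
  have hJB : IntegrableOn (Jac qx qy) (ball c b) := hJK.mono_set hBK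
  have hwc : ContinuousOn w (Icc a b) := fun r hr => (hw r hr).continuousAt.continuousWithinAt
  have hr0 : ∀ r ∈ Icc a b, 0 < r := fun r hr => ha.trans_le hr.1
  have hκ0 : ∀ r ∈ Icc a b, 0 < κ r := fun r hr => by linarith [hκ1 r hr]
  set m : ℝ → ℝ := fun r => 2 / (κ r * r) * w r * (κ r + 1 / κ r) with hm
  have hmc : ContinuousOn m (Icc a b) := by
    apply ContinuousOn.mul
    · apply ContinuousOn.mul _ hwc
      exact continuousOn_const.div (hκ.mul continuousOn_id)
        (fun r hr => (mul_pos (hκ0 r hr) (hr0 r hr)).ne')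
    · exact hκ.add (continuousOn_const.div hκ (fun r hr => (hκ0 r hr).ne'))
  have hm0 : ∀ r ∈ Icc a b, 0 ≤ m r := by
    intro r hr
    have h1 := hκ0 r hr
    have h2 := hr0 r hr
    have h3 := hw0 r hr
    simp only [hm]
    positivity
  obtain ⟨i1, e1⟩ := fub f w' c hab hfB hw'
  obtain ⟨i2, e2⟩ := fub (Jac qx qy) m c hab hJB hmc
  -- the derivative of the weight
  have e3 : ∫ z in ball c b, f z * ∫ r in (max a ‖z - c‖)..b, w' r =
      w b * Dir qx qy c b - ∫ z in ball c b, f z * w (max a ‖z - c‖) := by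
    have hWi : IntegrableOn (fun z => f z * w (max a ‖z - c‖)) (ball c b) := by
      obtain ⟨C0, hC0⟩ := isCompact_Icc.exists_bound_of_continuousOn hwc
      have hmaps : MapsTo (fun z : ℂ => max a ‖z - c‖) (ball c b) (Icc a b) := by
        intro z hz
        rw [mem_ball, dist_eq_norm] at hz
        exact ⟨le_max_left _ _, max_le hab hz.le⟩
      have h1 : ContinuousOn (fun z : ℂ => w (max a ‖z - c‖)) (ball c b) :=
        hwc.comp (continuous_const.max (continuous_id.sub continuous_const).norm).continuousOn hmaps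
      exact hfB.mul_bdd (c := C0) (h1.aestronglyMeasurable measurableSet_ball)
        ((ae_restrict_iff' measurableSet_ball).2 (Eventually.of_forall
          (fun z hz => hC0 _ (hmaps hz))))
    have h1 : ∀ z ∈ ball c b, f z * ∫ r in (max a ‖z - c‖)..b, w' r =
        f z * w b - f z * w (max a ‖z - c‖) := by
      intro z hz
      rw [mem_ball, dist_eq_norm] at hz
      have h2 : max a ‖z - c‖ ≤ b := max_le hab hz.le
      have h3 : uIcc (max a ‖z - c‖) b ⊆ Icc a b := by
        rw [uIcc_of_le h2]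
        exact Icc_subset_Icc_left (le_max_left _ _)
      rw [intervalIntegral.integral_eq_sub_of_hasDerivAt (fun r hr => hw r (h3 hr))
        (hw'.mono h3).intervalIntegrable]
      ring
    rw [setIntegral_congr_fun measurableSet_ball h1, integral_sub (hfB.mul_const _) hWi,
      integral_mul_const, mul_comm (w b)]
    rfl
  -- comparison of the one dimensional integrals
  have e4 : -(∫ r in a..b, w' r * ∫ z in ball c r, f z) ≤
      ∫ r in a..b, m r * ∫ z in ball c r, Jac qx qy z := by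
    rw [← intervalIntegral.integral_neg]
    apply intervalIntegral.integral_mono_on hab i1.neg i2
    intro r hr
    have h1 := hκ0 r hr
    have h2 := hr0 r hr
    have h3 := hw0 r hr
    have hbr : ball c r ⊆ ball c b := ball_subset_ball hr.2
    have hD0 : 0 ≤ ∫ z in ball c r, f z := integral_nonneg hf0
    have hD : ∫ z in ball c r, f z ≤ (κ r + 1 / κ r) * ∫ z in ball c r, Jac qx qy z := by
      rw [← integral_const_mul]
      apply integral_mono_ae (hfB.mono_set hbr) ((hJB.mono_set hbr).const_mul _)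
      exact hQR r hr
    calc -(w' r * ∫ z in ball c r, f z) = (-w' r) * ∫ z in ball c r, f z := by ring
      _ ≤ (2 / (κ r * r) * w r) * ∫ z in ball c r, f z :=
          mul_le_mul_of_nonneg_right (hdiff r hr) hD0
      _ ≤ (2 / (κ r * r) * w r) * ((κ r + 1 / κ r) * ∫ z in ball c r, Jac qx qy z) :=
          mul_le_mul_of_nonneg_left hD (by positivity)
      _ = m r * ∫ z in ball c r, Jac qx qy z := by simp only [hm]; ring
  have e5 := limit_case hSW ha hab hbR m hmc hm0
  have hmapsA : MapsTo (fun z : ℂ => ‖z - c‖) (Ann c a b) (Icc a b) :=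
    fun z hz => ⟨hz.1.le, hz.2.le⟩
  have hwA : IntegrableOn (fun z => f z * w ‖z - c‖) (Ann c a b) := by
    obtain ⟨C0, hC0⟩ := isCompact_Icc.exists_bound_of_continuousOn hwc
    have h1 : ContinuousOn (fun z : ℂ => w ‖z - c‖) (Ann c a b) :=
      hwc.comp (continuous_id.sub continuous_const).norm.continuousOn hmapsA
    exact (hfB.mono_set hAB).mul_bdd (c := C0) (h1.aestronglyMeasurable hAm)
      ((ae_restrict_iff' hAm).2 (Eventually.of_forall (fun z hz => hC0 _ (hmapsA hz))))
  -- the quasiregularity on circles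
  have e6 : ∫ z in Ann c a b, m ‖z - c‖ / (2 * ‖z - c‖) *
      ‖((z - c) * Complex.I).re • qx z + ((z - c) * Complex.I).im • qy z‖ ^ 2 ≤
      ∫ z in Ann c a b, f z * w ‖z - c‖ := by
    have hpt : ∀ᵐ z ∂(volume.restrict (Ann c a b)), m ‖z - c‖ / (2 * ‖z - c‖) *
        ‖((z - c) * Complex.I).re • qx z + ((z - c) * Complex.I).im • qy z‖ ^ 2 ≤
        f z * w ‖z - c‖ := by
      have h1 := qr_circ hκ hκ1 hQR
      have h2 : ∀ᵐ z ∂(volume.restrict (Ann c a b)), z ∈ Ann c a b := ae_restrict_mem hAm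
      filter_upwards [h1, h2] with z hz hzA
      have hrI := hmapsA hzA
      simp only [] at hrI
      have hk := hκ1 _ hrI
      have hk0 := hκ0 _ hrI
      have hρ := hr0 _ hrI
      have hwz := hw0 _ hrI
      have h3 := alg_tau (qx z) (qy z) (κ ‖z - c‖) ((z - c) * Complex.I).re
        ((z - c) * Complex.I).im hk hz
      have h4 : ((z - c) * Complex.I).re ^ 2 + ((z - c) * Complex.I).im ^ 2 = ‖z - c‖ ^ 2 := by
        have : ‖(z - c) * Complex.I‖ ^ 2 = ‖z - c‖ ^ 2 := by
          rw [norm_mul, Complex.norm_I, mul_one]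
        rw [← this, ← Complex.normSq_eq_norm_sq, Complex.normSq_apply]
        ring
      rw [h4] at h3
      simp only [hm]
      have h5 : ‖((z - c) * Complex.I).re • qx z + ((z - c) * Complex.I).im • qy z‖ ^ 2 ≤
          ‖z - c‖ ^ 2 * κ ‖z - c‖ ^ 2 * (‖qx z‖ ^ 2 + ‖qy z‖ ^ 2) / (1 + κ ‖z - c‖ ^ 2) := by
        rw [le_div_iff₀ (by positivity)]
        exact h3
      refine (mul_le_mul_of_nonneg_left h5 (by positivity)).trans (le_of_eq ?_)
      simp only [hf]
      field_simp
      ring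
    by_cases hint : Integrable (fun z => m ‖z - c‖ / (2 * ‖z - c‖) *
        ‖((z - c) * Complex.I).re • qx z + ((z - c) * Complex.I).im • qy z‖ ^ 2)
        (volume.restrict (Ann c a b))
    · exact integral_mono_ae hint hwA hpt
    · rw [integral_undef hint]
      apply setIntegral_nonneg hAm
      intro z hz
      exact mul_nonneg (hf0 z) (hw0 _ (hmapsA hz))
  -- splitting of the disc
  have e7 : w a * Dir qx qy c a + ∫ z in Ann c a b, f z * w ‖z - c‖ ≤
      ∫ z in ball c b, f z * w (max a ‖z - c‖) := by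
    have hWi : IntegrableOn (fun z => f z * w (max a ‖z - c‖)) (ball c b) := by
      obtain ⟨C0, hC0⟩ := isCompact_Icc.exists_bound_of_continuousOn hwc
      have hmaps : MapsTo (fun z : ℂ => max a ‖z - c‖) (ball c b) (Icc a b) := by
        intro z hz
        rw [mem_ball, dist_eq_norm] at hz
        exact ⟨le_max_left _ _, max_le hab hz.le⟩
      have h1 : ContinuousOn (fun z : ℂ => w (max a ‖z - c‖)) (ball c b) :=
        hwc.comp (continuous_const.max (continuous_id.sub continuous_const).norm).continuousOn hmaps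
      exact hfB.mul_bdd (c := C0) (h1.aestronglyMeasurable measurableSet_ball)
        ((ae_restrict_iff' measurableSet_ball).2 (Eventually.of_forall
          (fun z hz => hC0 _ (hmaps hz))))
    have hba : ball c a ⊆ ball c b := ball_subset_ball hab
    have hdisj : Disjoint (ball c a) (Ann c a b) := by
      rw [Set.disjoint_left]
      intro z hz hz2
      rw [mem_ball, dist_eq_norm] at hz
      exact absurd hz2.1 (not_lt.2 hz.le)
    have h1 : w a * Dir qx qy c a = ∫ z in ball c a, f z * w (max a ‖z - c‖) := by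
      have h2 : ∀ z ∈ ball c a, f z * w (max a ‖z - c‖) = w a * f z := by
        intro z hz
        rw [mem_ball, dist_eq_norm] at hz
        rw [max_eq_left hz.le, mul_comm]
      rw [setIntegral_congr_fun measurableSet_ball h2, integral_const_mul]
      rfl
    have h2 : ∫ z in Ann c a b, f z * w ‖z - c‖ =
        ∫ z in Ann c a b, f z * w (max a ‖z - c‖) := by
      apply setIntegral_congr_fun hAm
      intro z hz
      simp only []
      rw [max_eq_right hz.1.le]
    rw [h1, h2, ← setIntegral_union hdisj hAm (hWi.mono_set hba) (hWi.mono_set hAB)]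
    apply setIntegral_mono_set hWi
    · rw [EventuallyLE, ae_restrict_iff' measurableSet_ball]
      apply Eventually.of_forall
      intro z hz
      rw [mem_ball, dist_eq_norm] at hz
      exact mul_nonneg (hf0 z) (hw0 _ ⟨le_max_left _ _, max_le hab hz.le⟩)
    · exact (union_subset hba hAB).eventuallyLE
  rw [e1, e3] at e4
  rw [e2] at e4
  linarith

end Pool.Agent.W585.PHG
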